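import Mathlib
import Pool.Agent.Helper112.PairSieve
import Pool.Agent.Erdos456.Mertens

/-!
# Small prime factors of the Fibonacci and Lucas numbers of prime index

For the primes `p` (the only indices `p > 4`, up to powers of two for the Lucas numbers, for which
`U_p` or `V_p` can be prime) we bound the number of those for which `U_p V_p` has a prime factor
`≤ K p`.
-/

namespace Pool.Agent.Results.MP_5893d7_nt.FewSmallFactors

open Finset Filter

/-- The Lucas numbers `V_0 = 2`, `V_1 = 1`, `V_(n+2) = V_(n+1) + V_n`. -/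
def luc : ℕ → ℕ
  | 0 => 2
  | 1 => 1
  | n + 2 => luc (n + 1) + luc n

lemma luc_eq : ∀ n : ℕ, luc (n + 1) = Nat.fib n + Nat.fib (n + 2)
  | 0 => by simp [luc]
  | 1 => by simp [luc, Nat.fib_add_two]
  | n + 2 => by
    have h1 := luc_eq n
    have h2 := luc_eq (n + 1)
    show luc (n + 1 + 1) + luc (n + 1) = _
    rw [h2, h1]
    simp only [Nat.fib_add_two]
    ring

lemma fib_mul_luc (n : ℕ) (hn : 0 < n) : Nat.fib n * luc n = Nat.fib (2 * n) := by
  obtain ⟨m, rfl⟩ : ∃ m, n = m + 1 := ⟨n - 1, by omega⟩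
  rw [luc_eq, Nat.fib_two_mul]
  have h : Nat.fib (m + 1) ≤ 2 * Nat.fib (m + 1 + 1) := by
    have := Nat.fib_mono (Nat.le_succ (m + 1))
    simp only [Nat.succ_eq_add_one] at this
    omega
  congr 1
  have h2 : Nat.fib (m + 2) = Nat.fib m + Nat.fib (m + 1) := Nat.fib_add_two
  have h3 : m + 1 + 1 = m + 2 := rfl
  rw [h3] at h ⊢
  omega

lemma prime_factor_field {p q : ℕ} (hp : p.Prime) (hp2 : p ≠ 2) (hp5 : p ≠ 5) (hq : q.Prime)
    (hdvd : q ∣ Nat.fib (2 * p)) {F : Type} [Field F] [CharP F q] (a : F)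
    (ha : a ^ 2 - a - 1 = 0) :
    p ∣ q - 1 ∨ p ∣ q + 1 := by
  have : Fact q.Prime := ⟨hq⟩
  -- powers of `a` and of `b = 1 - a`
  have hpow : ∀ (c : F), c ^ 2 - c - 1 = 0 → ∀ j : ℕ,
      c ^ (j + 1) = (Nat.fib (j + 1) : F) * c + (Nat.fib j : F) := by
    intro c hc j
    induction j with
    | zero => simp
    | succ j ih =>
      have h1 : c ^ (j + 1 + 1) = c ^ (j + 1) * c := pow_succ _ _
      rw [h1, ih, Nat.fib_add_two (n := j)]
      push_cast
      linear_combination (Nat.fib (j + 1) : F) * hc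
  have hb : (1 - a) ^ 2 - (1 - a) - 1 = 0 := by linear_combination ha
  have hab : a * (1 - a) = -1 := by linear_combination (-1) * ha
  have ha0 : a ≠ 0 := by
    rintro rfl
    simp at ha
  have hp1 := hp.one_lt
  -- `a ^ (4 p) = 1`
  have h4p : a ^ (4 * p) = 1 := by
    have hcast : ((Nat.fib (2 * p) : ℕ) : F) = 0 := (CharP.cast_eq_zero_iff F q _).mpr hdvd
    obtain ⟨m, hm⟩ : ∃ m, 2 * p = m + 1 := ⟨2 * p - 1, by omega⟩
    have h1 := hpow a ha m
    have h2 := hpow (1 - a) hb m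
    rw [← hm, hcast, zero_mul, zero_add] at h1 h2
    have h3 : a ^ (4 * p) = a ^ (2 * p) * a ^ (2 * p) := by ring
    have h4 : a ^ (2 * p) * (1 - a) ^ (2 * p) = 1 := by
      rw [← mul_pow, hab, pow_mul]; simp
    rw [h3, ← h4, h1, h2]
  -- Frobenius
  have hfrob : a ^ (q - 1) = 1 ∨ a ^ (2 * (q + 1)) = 1 := by
    have h1 : (a ^ q) ^ 2 - a ^ q - 1 = 0 := by
      have h2 : (a ^ 2 - a - 1) ^ q = 0 := by rw [ha]; exact zero_pow hq.ne_zero
      rw [sub_pow_char, sub_pow_char, one_pow] at h2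
      rw [← h2]; ring
    have h2 : (a ^ q - a) * (a ^ q - (1 - a)) = 0 := by linear_combination h1 - ha
    rcases mul_eq_zero.mp h2 with h3 | h3
    · left
      have h4 : a ^ q = a ^ (q - 1) * a := by
        rw [← pow_succ]; congr 1
        have := hq.one_lt
        omega
      rw [h4] at h3
      exact mul_right_cancel₀ ha0 (by rw [one_mul]; linear_combination h3)
    · right
      have h4 : a ^ (2 * (q + 1)) = (a ^ q * a) ^ 2 := by ring
      have h5 : a ^ q = 1 - a := by linear_combination h3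
      rw [h4, h5, mul_comm (1 - a) a, hab]; ring
  by_contra hcon
  push Not at hcon
  obtain ⟨hc1, hc2⟩ := hcon
  have hord : orderOf a ∣ 4 := by
    have h1 : orderOf a ∣ 4 * p := orderOf_dvd_of_pow_eq_one h4p
    have hcop : Nat.Coprime (orderOf a) p := by
      rw [Nat.coprime_comm, Nat.Prime.coprime_iff_not_dvd hp]
      intro hld
      rcases hfrob with h | h
      · exact hc1 (hld.trans (orderOf_dvd_of_pow_eq_one h))
      · have h2 : p ∣ 2 * (q + 1) := hld.trans (orderOf_dvd_of_pow_eq_one h)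
        rcases (Nat.Prime.dvd_mul hp).mp h2 with h3 | h3
        · exact hp2 ((Nat.prime_dvd_prime_iff_eq hp Nat.prime_two).mp h3)
        · exact hc2 h3
    exact hcop.dvd_of_dvd_mul_right h1
  have h4 : a ^ 4 = 1 := orderOf_dvd_iff_pow_eq_one.mp hord
  have h5 : (5 : F) = 0 := by
    have e1 : a ^ 4 = 3 * a + 2 := by linear_combination (a ^ 2 + a + 2) * ha
    have e2 : 3 * a + 1 = 0 := by linear_combination (-1) * e1 + h4
    linear_combination (3 * a - 4) * e2 - 9 * ha
  have hq5 : q = 5 := by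
    have h1 : ((5 : ℕ) : F) = 0 := by exact_mod_cast h5
    rw [CharP.cast_eq_zero_iff F q] at h1
    exact (Nat.prime_dvd_prime_iff_eq hq (by norm_num)).mp h1
  subst hq5
  have h6 : 5 ∣ Nat.gcd (Nat.fib (2 * p)) (Nat.fib 5) :=
    Nat.dvd_gcd hdvd (by decide)
  rw [← Nat.fib_gcd] at h6
  have h7 : Nat.gcd (2 * p) 5 = 1 := by
    rw [Nat.gcd_comm]
    apply (Nat.Prime.coprime_iff_not_dvd (by norm_num)).mpr
    intro h8
    rcases (Nat.Prime.dvd_mul (by norm_num)).mp h8 with h9 | h9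
    · omega
    · exact hp5 ((Nat.prime_dvd_prime_iff_eq (by norm_num) hp).mp h9).symm
  rw [h7] at h6
  simp at h6

/-- A prime factor `q` of `U_p V_p = U_(2p)` is `≡ ± 1` modulo the prime `p ≠ 2, 5`. -/
lemma prime_factor {p q : ℕ} (hp : p.Prime) (hp2 : p ≠ 2) (hp5 : p ≠ 5) (hq : q.Prime)
    (hdvd : q ∣ Nat.fib p * luc p) : p ∣ q - 1 ∨ p ∣ q + 1 := by
  have : Fact q.Prime := ⟨hq⟩
  have hc : CharP (AlgebraicClosure (ZMod q)) q :=
    charP_of_injective_algebraMap (algebraMap (ZMod q) (AlgebraicClosure (ZMod q))).injective q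
  obtain ⟨a, ha⟩ : ∃ a : AlgebraicClosure (ZMod q), a ^ 2 - a - 1 = 0 := by
    have hdeg : (Polynomial.X ^ 2 - Polynomial.X - 1 :
        Polynomial (AlgebraicClosure (ZMod q))).degree ≠ 0 := by
      have : (Polynomial.X ^ 2 - Polynomial.X - 1 :
        Polynomial (AlgebraicClosure (ZMod q))).degree = 2 := by compute_degree!
      rw [this]; norm_num
    obtain ⟨a, ha⟩ := IsAlgClosed.exists_root _ hdeg
    refine ⟨a, ?_⟩
    simpa [Polynomial.IsRoot] using ha
  rw [fib_mul_luc p hp.pos] at hdvd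
  exact prime_factor_field hp hp2 hp5 hq hdvd a ha

/-- The number of primes `p ≤ x` such that `U_p V_p` has a prime factor `q ≤ K p`. -/
noncomputable def bad (x K : ℕ) : ℕ := by
  classical
  exact ((range (x + 1)).filter (fun p => p.Prime ∧
    ∃ q : ℕ, q.Prime ∧ q ∣ Nat.fib p * luc p ∧ q ≤ K * p)).card

/-- primes `p` with `h p + 1` prime -/
def T1 (x h : ℕ) : Finset ℕ := (Icc 1 x).filter (fun n => (1 * n + 0).Prime ∧ (h * n + 1).Prime)

/-- primes `p = n + 1` with `h p - 1` prime -/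
def T2 (x h : ℕ) : Finset ℕ :=
  (Icc 1 x).filter (fun n => (1 * n + 1).Prime ∧ (h * n + (h - 1)).Prime)

/-- the multiplier `h` of a prime factor `q ≤ K p` of `U_p V_p` -/
lemma exists_mult {p q K : ℕ} (hp : p.Prime) (hp2 : p ≠ 2) (hp5 : p ≠ 5) (hq : q.Prime)
    (hdvd : q ∣ Nat.fib p * luc p) (hle : q ≤ K * p) :
    ∃ h ∈ Icc 1 (K + 1), q = h * p + 1 ∨ q + 1 = h * p := by
  have hq1 := hq.one_lt
  have hp1 := hp.one_lt
  rcases prime_factor hp hp2 hp5 hq hdvd with ⟨h, hh⟩ | ⟨h, hh⟩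
  · refine ⟨h, ?_, Or.inl ?_⟩
    · rw [mem_Icc]
      constructor
      · rcases Nat.eq_zero_or_pos h with h0 | h0
        · subst h0; omega
        · exact h0
      · by_contra hcon
        push Not at hcon
        have h2 : p * (K + 2) ≤ p * h := Nat.mul_le_mul_left _ hcon
        have e : p * (K + 2) = K * p + 2 * p := by ring
        omega
    · rw [mul_comm h p]; omega
  · refine ⟨h, ?_, Or.inr ?_⟩
    · rw [mem_Icc]
      constructor
      · rcases Nat.eq_zero_or_pos h with h0 | h0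
        · subst h0; omega
        · exact h0
      · by_contra hcon
        push Not at hcon
        have h2 : p * (K + 2) ≤ p * h := Nat.mul_le_mul_left _ hcon
        have e : p * (K + 2) = K * p + 2 * p := by ring
        omega
    · rw [mul_comm h p]; exact hh

lemma mem_T1 {x h p : ℕ} (hpx : p ≤ x) (hp : p.Prime) (hq : (h * p + 1).Prime) : p ∈ T1 x h := by
  unfold T1
  rw [mem_filter, mem_Icc]
  exact ⟨⟨hp.one_lt.le, hpx⟩, by simpa using hp, hq⟩

lemma mem_T2 {x h p : ℕ} (hpx : p ≤ x) (hp : p.Prime) (hh : 1 ≤ h) (hq : (h * p - 1).Prime) :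
    p ∈ (T2 x h).image (fun n => n + 1) := by
  rw [mem_image]
  have hp1 := hp.one_lt
  refine ⟨p - 1, ?_, by omega⟩
  unfold T2
  rw [mem_filter, mem_Icc]
  refine ⟨⟨by omega, by omega⟩, ?_, ?_⟩
  · have : 1 * (p - 1) + 1 = p := by omega
    rw [this]; exact hp
  · have : h * (p - 1) + (h - 1) = h * p - 1 := by
      obtain ⟨m, rfl⟩ : ∃ m, p = m + 1 := ⟨p - 1, by omega⟩
      rw [Nat.add_sub_cancel, Nat.mul_succ]
      omega
    rw [this]; exact hq

lemma bad_le (x K : ℕ) :
    bad x K ≤ 2 + ∑ h ∈ Icc 1 (K + 1), ((T1 x h).card + (T2 x h).card) := by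
  classical
  unfold bad
  have hsub : ((range (x + 1)).filter (fun p => p.Prime ∧
      ∃ q : ℕ, q.Prime ∧ q ∣ Nat.fib p * luc p ∧ q ≤ K * p)) ⊆
      {2, 5} ∪ (Icc 1 (K + 1)).biUnion (fun h => T1 x h ∪ (T2 x h).image (fun n => n + 1)) := by
    intro p hp
    rw [mem_filter, mem_range] at hp
    obtain ⟨hpx, hpp, q, hq, hdvd, hle⟩ := hp
    rw [mem_union]
    by_cases h25 : p = 2 ∨ p = 5
    · left
      simpa using h25
    right
    push Not at h25
    rw [mem_biUnion]
    obtain ⟨h, hh, hcase⟩ := exists_mult hpp h25.1 h25.2 hq hdvd hle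
    refine ⟨h, hh, ?_⟩
    rw [mem_union]
    rcases hcase with h1 | h1
    · left
      exact mem_T1 (by omega) hpp (h1 ▸ hq)
    · right
      have : q = h * p - 1 := by omega
      exact mem_T2 (by omega) hpp (mem_Icc.1 hh).1 (this ▸ hq)
  refine (card_le_card hsub).trans ((card_union_le _ _).trans ?_)
  have h2 : ({2, 5} : Finset ℕ).card ≤ 2 := card_le_two
  refine Nat.add_le_add h2 (card_biUnion_le.trans (sum_le_sum fun h _ => ?_))
  exact (card_union_le _ _).trans (Nat.add_le_add_left card_image_le _)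

lemma T_bound : ∃ C : ℝ, 0 < C ∧ ∀ x h : ℕ, 2 ≤ x → 1 ≤ h →
    (((T1 x h).card : ℝ) + (T2 x h).card) ≤
      (C * x / (Real.log x) ^ 2) * ((h : ℝ) / (Nat.totient h : ℝ)) ^ 6 := by
  obtain ⟨C1, hC1, hs⟩ := Pool.Agent.Helper112.E456.sieve_two
  refine ⟨2 * C1, by positivity, fun x h hx hh1 => ?_⟩
  have hlog : 0 < Real.log x := Real.log_pos (by exact_mod_cast hx)
  have ht1 : ((T1 x h).card : ℝ) ≤
      C1 * ((h : ℝ) / (Nat.totient h : ℝ)) ^ 2 * x / (Real.log x) ^ 2 := by
    have := hs 1 0 h 1 x (by norm_num) (by omega) (by norm_num) (by simp) (by simp) hx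
    have hD : 1 * h * (((1 * 1 : ℕ) : ℤ) - ((h * 0 : ℕ) : ℤ)).natAbs = h := by simp
    rw [hD] at this
    exact this
  have ht2 : ((T2 x h).card : ℝ) ≤
      C1 * ((h : ℝ) / (Nat.totient h : ℝ)) ^ 2 * x / (Real.log x) ^ 2 := by
    have hcop : Nat.Coprime h (h - 1) := by
      have : h = (h - 1) + 1 := by omega
      rw [this, Nat.add_sub_cancel]
      simp
    have := hs 1 1 h (h - 1) x (by norm_num) (by omega) (by norm_num) hcop (by omega) hx
    have hD : 1 * h * (((1 * (h - 1) : ℕ) : ℤ) - ((h * 1 : ℕ) : ℤ)).natAbs = h := by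
      have : (((1 * (h - 1) : ℕ) : ℤ) - ((h * 1 : ℕ) : ℤ)).natAbs = 1 := by omega
      rw [this]; ring
    rw [hD] at this
    exact this
  have hφ : (0 : ℝ) < Nat.totient h := by exact_mod_cast Nat.totient_pos.mpr hh1
  have hratio : 1 ≤ (h : ℝ) / (Nat.totient h : ℝ) := by
    rw [le_div_iff₀ hφ, one_mul]
    exact_mod_cast Nat.totient_le h
  have hpow : ((h : ℝ) / (Nat.totient h : ℝ)) ^ 2 ≤ ((h : ℝ) / (Nat.totient h : ℝ)) ^ 6 :=
    pow_le_pow_right₀ hratio (by norm_num)
  calc ((T1 x h).card : ℝ) + (T2 x h).card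
      ≤ 2 * (C1 * ((h : ℝ) / (Nat.totient h : ℝ)) ^ 2 * x / (Real.log x) ^ 2) := by linarith
    _ = (2 * C1 * x / (Real.log x) ^ 2) * ((h : ℝ) / (Nat.totient h : ℝ)) ^ 2 := by ring
    _ ≤ _ := by
        apply mul_le_mul_of_nonneg_left hpow
        positivity

lemma log_sq_le {x : ℕ} (hx : 2 ≤ x) : (1 : ℝ) ≤ 4 * (x / (Real.log x) ^ 2) := by
  have hx0 : (0 : ℝ) < x := by positivity
  have hlog : 0 < Real.log x := Real.log_pos (by exact_mod_cast hx)
  have h1 : Real.log x ≤ 2 * Real.sqrt x := by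
    have h2 : Real.log (Real.sqrt x) ≤ Real.sqrt x - 1 :=
      Real.log_le_sub_one_of_pos (Real.sqrt_pos.2 hx0)
    rw [Real.log_sqrt hx0.le] at h2
    linarith
  have h3 : (Real.log x) ^ 2 ≤ 4 * x := by
    calc (Real.log x) ^ 2 ≤ (2 * Real.sqrt x) ^ 2 := pow_le_pow_left₀ hlog.le h1 2
      _ = 4 * x := by rw [mul_pow, Real.sq_sqrt hx0.le]; norm_num
  rw [← mul_div_assoc, le_div_iff₀ (by positivity), one_mul]
  exact h3

/-- **Main bound.** -/
lemma bad_bound : ∃ C : ℝ, 0 < C ∧ ∀ x K : ℕ, 2 ≤ x → 1 ≤ K →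
    (bad x K : ℝ) ≤ C * K * x / (Real.log x) ^ 2 := by
  obtain ⟨C1, hC1, hs⟩ := T_bound
  obtain ⟨C2, hC2⟩ := Pool.Agent.Erdos456.Mert.totRatio_moment
  have hC20 : 1 ≤ C2 := by
    have := hC2 1
    simp only [Icc_self, sum_singleton, Nat.cast_one, Nat.totient_one] at this
    norm_num at this
    linarith
  refine ⟨8 + 2 * C1 * C2, by positivity, fun x K hx hK => ?_⟩
  have hlog : 0 < Real.log x := Real.log_pos (by exact_mod_cast hx)
  have hK' : (1 : ℝ) ≤ K := by exact_mod_cast hK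
  have h1 : (bad x K : ℝ) ≤
      ((2 + ∑ h ∈ Icc 1 (K + 1), ((T1 x h).card + (T2 x h).card) : ℕ) : ℝ) := by
    exact_mod_cast bad_le x K
  push_cast at h1
  have hsum : ∑ h ∈ Icc 1 (K + 1), (((T1 x h).card : ℝ) + (T2 x h).card) ≤
      2 * C1 * C2 * K * x / (Real.log x) ^ 2 := by
    refine (sum_le_sum fun h hh => hs x h hx (mem_Icc.1 hh).1).trans ?_
    rw [← mul_sum]
    have h2 := hC2 (K + 1)
    have h3 : C2 * ((K + 1 : ℕ) : ℝ) ≤ C2 * (2 * K) := by
      apply mul_le_mul_of_nonneg_left _ (by linarith)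
      push_cast
      linarith
    calc (C1 * x / (Real.log x) ^ 2) * ∑ h ∈ Icc 1 (K + 1), ((h : ℝ) / (Nat.totient h : ℝ)) ^ 6
        ≤ (C1 * x / (Real.log x) ^ 2) * (C2 * (2 * K)) := by
          apply mul_le_mul_of_nonneg_left (h2.trans h3)
          positivity
      _ = 2 * C1 * C2 * K * x / (Real.log x) ^ 2 := by ring
  have h8 : (2 : ℝ) ≤ 8 * K * x / (Real.log x) ^ 2 := by
    have h9 := log_sq_le hx
    have h10 : (x : ℝ) / (Real.log x) ^ 2 ≤ K * (x / (Real.log x) ^ 2) := by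
      have : 0 ≤ (x : ℝ) / (Real.log x) ^ 2 := by positivity
      nlinarith
    have e : 8 * (K : ℝ) * x / (Real.log x) ^ 2 = 8 * (K * (x / (Real.log x) ^ 2)) := by ring
    rw [e]
    linarith
  calc (bad x K : ℝ) ≤ 2 + 2 * C1 * C2 * K * x / (Real.log x) ^ 2 := h1.trans (by linarith)
    _ ≤ 8 * K * x / (Real.log x) ^ 2 + 2 * C1 * C2 * K * x / (Real.log x) ^ 2 := by linarith
    _ = _ := by ring

lemma pi_lower : ∀ᶠ x : ℕ in atTop, (x : ℝ) / (2 * Real.log x) ≤ Nat.primeCounting x := by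
  have h1 : Tendsto (fun x : ℕ => Real.log ((x : ℝ) + 1) / x) atTop (nhds 0) := by
    have h2 : Tendsto (fun x : ℝ => Real.log x / x) atTop (nhds 0) := by
      have := Real.isLittleO_log_id_atTop.tendsto_div_nhds_zero
      simpa using this
    have h3 : Tendsto (fun x : ℕ => (x : ℝ) + 1) atTop atTop :=
      tendsto_atTop_add_const_right _ _ tendsto_natCast_atTop_atTop
    have h4 := h2.comp h3
    have h5 : Tendsto (fun x : ℕ => ((x : ℝ) + 1) / x) atTop (nhds 1) := by
      have : Tendsto (fun x : ℕ => 1 + 1 / (x : ℝ)) atTop (nhds (1 + 0)) :=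
        tendsto_const_nhds.add tendsto_one_div_atTop_nhds_zero_nat
      rw [add_zero] at this
      refine this.congr' ?_
      filter_upwards [eventually_gt_atTop 0] with x hx
      have : (x : ℝ) ≠ 0 := by positivity
      field_simp
      try ring
    have h6 := h4.mul h5
    rw [zero_mul] at h6
    refine h6.congr' ?_
    filter_upwards [eventually_gt_atTop 0] with x hx
    have : (x : ℝ) ≠ 0 := by positivity
    have h7 : (x : ℝ) + 1 ≠ 0 := by positivity
    simp only [Function.comp]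
    field_simp
  have h8 : ∀ᶠ x : ℕ in atTop, Real.log ((x : ℝ) + 1) / x < Real.log 2 - 1 / 2 :=
    h1.eventually_lt_const (by
      have := Real.log_two_gt_d9
      linarith)
  filter_upwards [h8, eventually_ge_atTop 2] with x hx hx2
  have hx0 : (0 : ℝ) < x := by positivity
  have hlog : 0 < Real.log x := Real.log_pos (by exact_mod_cast hx2)
  have h9 := Chebyshev.pi_ge x
  refine le_trans ?_ h9
  rw [div_le_div_iff₀ (by positivity) hlog]
  rw [div_lt_iff₀ hx0] at hx
  nlinarith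

/-! ### The sum of the reciprocals of the prime factors -/

/-- The sum of the reciprocals of the prime factors of `U_p V_p`. -/
noncomputable def R (p : ℕ) : ℝ := ∑ q ∈ (Nat.fib p * luc p).primeFactors, 1 / (q : ℝ)

lemma fib_lt_two_pow : ∀ n : ℕ, Nat.fib n < 2 ^ n
  | 0 => by simp
  | 1 => by simp
  | n + 2 => by
    have h1 := fib_lt_two_pow n
    have h2 := fib_lt_two_pow (n + 1)
    rw [Nat.fib_add_two, pow_succ, pow_succ]
    rw [pow_succ] at h2
    omega

lemma card_primeFactors_le (p : ℕ) (hp : 0 < p) :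
    (Nat.fib p * luc p).primeFactors.card ≤ 2 * p := by
  rw [fib_mul_luc p hp]
  have h1 : 2 ^ (Nat.fib (2 * p)).primeFactors.card ≤ Nat.fib (2 * p) := by
    calc 2 ^ (Nat.fib (2 * p)).primeFactors.card
        ≤ ∏ q ∈ (Nat.fib (2 * p)).primeFactors, q :=
          Finset.pow_card_le_prod _ _ _ (fun q hq => (Nat.prime_of_mem_primeFactors hq).two_le)
      _ ≤ Nat.fib (2 * p) := Nat.le_of_dvd (Nat.fib_pos.2 (by omega)) (Nat.prod_primeFactors_dvd _)
  have h2 := h1.trans_lt (fib_lt_two_pow (2 * p))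
  exact ((Nat.pow_lt_pow_iff_right (by norm_num)).1 h2).le

open Classical in
/-- The contribution of the multiplier `h` at the prime `p`. -/
noncomputable def g (h p : ℕ) : ℝ :=
  (if (h * p + 1).Prime then 2 / (h : ℝ) else 0) + (if (h * p - 1).Prime then 2 / (h : ℝ) else 0)

lemma mass_le {p x : ℕ} (hp : p.Prime) (hp2 : p ≠ 2) (hp5 : p ≠ 5) (hpx : p ≤ x) :
    p * R p ≤ ∑ h ∈ Icc 1 (x + 1), g h p + 2 := by
  classical
  have hp0 : (0 : ℝ) < p := by exact_mod_cast hp.pos
  have hx0 : (0 : ℝ) < x := lt_of_lt_of_le hp0 (by exact_mod_cast hpx)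
  unfold R
  rw [← Finset.sum_filter_add_sum_filter_not _ (fun q => q ≤ x * p), mul_add]
  refine add_le_add ?_ ?_
  · -- small prime factors
    set A := ((Nat.fib p * luc p).primeFactors.filter (fun q => q ≤ x * p)) with hA
    set B1 := ((Icc 1 (x + 1)).filter (fun h => (h * p + 1).Prime)) with hB1
    set B2 := ((Icc 1 (x + 1)).filter (fun h => (h * p - 1).Prime)) with hB2
    have hsub : A ⊆ B1.image (fun h => h * p + 1) ∪ B2.image (fun h => h * p - 1) := by
      intro q hq
      rw [hA, mem_filter, Nat.mem_primeFactors] at hq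
      obtain ⟨⟨hqp, hqd, -⟩, hle⟩ := hq
      obtain ⟨h, hh, hcase⟩ := exists_mult hp hp2 hp5 hqp hqd hle
      rw [mem_union, mem_image, mem_image]
      rcases hcase with h1 | h1
      · left
        exact ⟨h, by rw [hB1, mem_filter]; exact ⟨hh, h1 ▸ hqp⟩, h1.symm⟩
      · right
        have h2 : q = h * p - 1 := by omega
        exact ⟨h, by rw [hB2, mem_filter]; exact ⟨hh, h2 ▸ hqp⟩, h2.symm⟩
    have h1 : ∑ q ∈ A, 1 / (q : ℝ) ≤
        ∑ q ∈ B1.image (fun h => h * p + 1), 1 / (q : ℝ) +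
        ∑ q ∈ B2.image (fun h => h * p - 1), 1 / (q : ℝ) := by
      refine (sum_le_sum_of_subset_of_nonneg hsub (fun _ _ _ => by positivity)).trans ?_
      rw [← sum_union_inter]
      have : 0 ≤ ∑ q ∈ B1.image (fun h => h * p + 1) ∩ B2.image (fun h => h * p - 1),
          1 / (q : ℝ) := sum_nonneg fun _ _ => by positivity
      linarith
    have hi1 : Set.InjOn (fun h => h * p + 1) (B1 : Set ℕ) := by
      intro a _ b _ hab
      simp only at hab
      exact Nat.eq_of_mul_eq_mul_right hp.pos (by omega)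
    have hi2 : Set.InjOn (fun h => h * p - 1) (B2 : Set ℕ) := by
      intro a ha b hb hab
      rw [mem_coe, hB2, mem_filter, mem_Icc] at ha hb
      simp only at hab
      have h1 : 1 ≤ a * p := Nat.mul_pos ha.1.1 hp.pos
      have h2 : 1 ≤ b * p := Nat.mul_pos hb.1.1 hp.pos
      exact Nat.eq_of_mul_eq_mul_right hp.pos (by omega)
    rw [sum_image hi1, sum_image hi2] at h1
    have h2 : ∀ h ∈ B1, (p : ℝ) * (1 / ((h * p + 1 : ℕ) : ℝ)) ≤ 2 / (h : ℝ) := by
      intro h hh
      rw [hB1, mem_filter, mem_Icc] at hh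
      have hh0 : (0 : ℝ) < h := by exact_mod_cast hh.1.1
      push_cast
      rw [mul_one_div, div_le_div_iff₀ (by positivity) hh0]
      nlinarith
    have h3 : ∀ h ∈ B2, (p : ℝ) * (1 / ((h * p - 1 : ℕ) : ℝ)) ≤ 2 / (h : ℝ) := by
      intro h hh
      rw [hB2, mem_filter, mem_Icc] at hh
      have hh0 : (0 : ℝ) < h := by exact_mod_cast hh.1.1
      have hle : 1 * 2 ≤ h * p := Nat.mul_le_mul hh.1.1 hp.two_le
      have hle' : (2 : ℝ) ≤ h * p := by exact_mod_cast hle
      rw [Nat.cast_sub (by omega)]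
      push_cast
      rw [mul_one_div, div_le_div_iff₀ (by linarith) hh0]
      nlinarith
    calc (p : ℝ) * ∑ q ∈ A, 1 / (q : ℝ)
        ≤ p * (∑ h ∈ B1, 1 / ((h * p + 1 : ℕ) : ℝ) + ∑ h ∈ B2, 1 / ((h * p - 1 : ℕ) : ℝ)) :=
          mul_le_mul_of_nonneg_left h1 hp0.le
      _ = ∑ h ∈ B1, (p : ℝ) * (1 / ((h * p + 1 : ℕ) : ℝ)) +
          ∑ h ∈ B2, (p : ℝ) * (1 / ((h * p - 1 : ℕ) : ℝ)) := by
          rw [mul_add, mul_sum, mul_sum]
      _ ≤ ∑ h ∈ B1, 2 / (h : ℝ) + ∑ h ∈ B2, 2 / (h : ℝ) :=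
          add_le_add (sum_le_sum h2) (sum_le_sum h3)
      _ = ∑ h ∈ Icc 1 (x + 1), g h p := by
          rw [hB1, hB2, sum_filter, sum_filter, ← sum_add_distrib]
          rfl
  · -- large prime factors
    have h1 : ∀ q ∈ ((Nat.fib p * luc p).primeFactors.filter (fun q => ¬ q ≤ x * p)),
        1 / (q : ℝ) ≤ 1 / ((x : ℝ) * p) := by
      intro q hq
      rw [mem_filter, not_le] at hq
      have : ((x * p : ℕ) : ℝ) ≤ q := by exact_mod_cast hq.2.le
      push_cast at this
      exact one_div_le_one_div_of_le (by positivity) this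
    have h2 := sum_le_card_nsmul _ _ _ h1
    rw [nsmul_eq_mul] at h2
    have h3 : (((Nat.fib p * luc p).primeFactors.filter (fun q => ¬ q ≤ x * p)).card : ℝ) ≤
        2 * p := by
      have := (card_filter_le (Nat.fib p * luc p).primeFactors (fun q => ¬ q ≤ x * p)).trans
        (card_primeFactors_le p hp.pos)
      exact_mod_cast this
    have hpx' : (p : ℝ) ≤ x := by exact_mod_cast hpx
    calc (p : ℝ) * ∑ q ∈ ((Nat.fib p * luc p).primeFactors.filter (fun q => ¬ q ≤ x * p)),
          1 / (q : ℝ)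
        ≤ p * (2 * p * (1 / ((x : ℝ) * p))) := by
          apply mul_le_mul_of_nonneg_left _ hp0.le
          exact h2.trans (mul_le_mul_of_nonneg_right h3 (by positivity))
      _ = 2 * (p / x) := by field_simp
      _ ≤ 2 * 1 := by
          apply mul_le_mul_of_nonneg_left _ (by norm_num)
          rw [div_le_one hx0]; exact hpx'
      _ = 2 := by norm_num

/-- Partial summation. -/
lemma abel {a : ℕ → ℝ} {C : ℝ} (ha : ∀ N : ℕ, ∑ n ∈ Icc 1 N, a n ≤ C * N) (N : ℕ) (hN : 1 ≤ N) :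
    ∑ n ∈ Icc 1 N, a n / n ≤ (∑ n ∈ Icc 1 N, a n) / N + C * ∑ n ∈ Icc 2 N, 1 / (n : ℝ) := by
  induction N, hN using Nat.le_induction with
  | base => simp
  | succ N hN ih =>
    rw [sum_Icc_succ_top (by omega), sum_Icc_succ_top (by omega : 1 ≤ N + 1)]
    rw [sum_Icc_succ_top (by omega : 2 ≤ N + 1)]
    have hN0 : (0 : ℝ) < N := by exact_mod_cast hN
    have h1 := ha N
    set S := ∑ n ∈ Icc 1 N, a n with hS
    push_cast
    have h2 : S / N - S / (N + 1) ≤ C * (1 / (N + 1)) := by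
      have e : S / N - S / (N + 1) = (S / N) * (1 / (N + 1)) := by
        field_simp; ring
      rw [e]
      apply mul_le_mul_of_nonneg_right _ (by positivity)
      rw [div_le_iff₀ hN0]; exact h1
    have e3 : (S + a (N + 1)) / ((N : ℝ) + 1) = S / (N + 1) + a (N + 1) / (N + 1) := add_div _ _ _
    rw [e3, mul_add]
    linarith

lemma weighted_sum : ∃ C : ℝ, 0 < C ∧ ∀ x : ℕ, 2 ≤ x →
    ∑ h ∈ Icc 1 (x + 1), ((h : ℝ) / (Nat.totient h : ℝ)) ^ 6 / h ≤ C * Real.log x := by
  obtain ⟨C2, hC2⟩ := Pool.Agent.Erdos456.Mert.totRatio_moment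
  have hC20 : 1 ≤ C2 := by
    have := hC2 1
    simp only [Icc_self, sum_singleton, Nat.cast_one, Nat.totient_one] at this
    norm_num at this
    linarith
  refine ⟨C2 * 5, by positivity, fun x hx => ?_⟩
  have h1 := abel hC2 (x + 1) (by omega)
  have h2 : (∑ n ∈ Icc 1 (x + 1), ((n : ℝ) / (Nat.totient n : ℝ)) ^ 6) / ((x + 1 : ℕ) : ℝ) ≤ C2 := by
    rw [div_le_iff₀ (by positivity)]
    exact hC2 (x + 1)
  have h3 : ∑ n ∈ Icc 2 (x + 1), 1 / (n : ℝ) ≤ Real.log ((x : ℝ) + 1) := by
    have h4 := harmonic_le_one_add_log (x + 1)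
    rw [harmonic_eq_sum_Icc] at h4
    push_cast at h4
    have h5 : Icc 1 (x + 1) = insert 1 (Icc 2 (x + 1)) := by
      ext n; simp only [mem_insert, mem_Icc]; omega
    rw [h5, sum_insert (by simp)] at h4
    simp only [Nat.cast_one, inv_one] at h4
    simp only [one_div]
    linarith
  have hx' : (2 : ℝ) ≤ x := by exact_mod_cast hx
  have h6 : Real.log ((x : ℝ) + 1) ≤ 2 * Real.log x := by
    have : 2 * Real.log x = Real.log ((x : ℝ) ^ 2) := by
      rw [Real.log_pow]; norm_num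
    rw [this]
    apply Real.log_le_log (by positivity)
    nlinarith
  have h7 : (1 : ℝ) ≤ 3 * Real.log x := by
    have h8 := Real.log_two_gt_d9
    have h9 : Real.log 2 ≤ Real.log x := Real.log_le_log (by norm_num) hx'
    linarith
  refine h1.trans ?_
  have h10 : C2 * ∑ n ∈ Icc 2 (x + 1), 1 / (n : ℝ) ≤ C2 * (2 * Real.log x) :=
    mul_le_mul_of_nonneg_left (h3.trans h6) (by linarith)
  have h11 : C2 ≤ C2 * (3 * Real.log x) := by nlinarith
  calc _ ≤ C2 * (3 * Real.log x) + C2 * (2 * Real.log x) := by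
        refine add_le_add (h2.trans h11) h10
    _ = _ := by ring

/-- **Mass bound.** -/
lemma mass_bound : ∃ C : ℝ, 0 < C ∧ ∀ᶠ x : ℕ in atTop,
    ∑ p ∈ (range (x + 1)).filter Nat.Prime, p * R p ≤ C * Nat.primeCounting x := by
  classical
  obtain ⟨C1, hC1, hT⟩ := T_bound
  obtain ⟨C3, hC3, hW⟩ := weighted_sum
  have hR0 : ∀ p, 0 ≤ R p := fun p => sum_nonneg fun _ _ => by positivity
  refine ⟨4 * C1 * C3 + 2 + (2 * R 2 + 5 * R 5),
    by have := hR0 2; have := hR0 5; positivity, ?_⟩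
  filter_upwards [pi_lower, eventually_ge_atTop 2] with x hx hx2
  have hx0 : (0 : ℝ) < x := by positivity
  have hlog : 0 < Real.log x := Real.log_pos (by exact_mod_cast hx2)
  set P := (range (x + 1)).filter Nat.Prime with hP
  have hPcard : (P.card : ℝ) = Nat.primeCounting x := by
    rw [Nat.primeCounting, Nat.primeCounting', Nat.count_eq_card_filter_range]
  have hpi1 : (1 : ℝ) ≤ Nat.primeCounting x := by
    have : 0 < Nat.primeCounting x := by
      rw [← Nat.cast_pos (α := ℝ), ← hPcard, Nat.cast_pos, card_pos]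
      exact ⟨2, by rw [hP, mem_filter, mem_range]; exact ⟨by omega, Nat.prime_two⟩⟩
    exact_mod_cast this
  -- pointwise bound
  have hpt : ∀ p ∈ P, p * R p ≤ (∑ h ∈ Icc 1 (x + 1), g h p + 2) +
      ((if p = 2 then 2 * R 2 else 0) + (if p = 5 then 5 * R 5 else 0)) := by
    intro p hp
    rw [hP, mem_filter, mem_range] at hp
    have hg : 0 ≤ ∑ h ∈ Icc 1 (x + 1), g h p := by
      apply sum_nonneg
      intro h _
      unfold g
      split_ifs <;> positivity
    by_cases h2 : p = 2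
    · subst h2
      have : (0 : ℝ) ≤ (if (2 : ℕ) = 5 then 5 * R 5 else 0) := by simp
      rw [if_pos rfl]
      push_cast
      linarith
    · by_cases h5 : p = 5
      · subst h5
        rw [if_neg (by norm_num), if_pos rfl]
        push_cast
        linarith
      · rw [if_neg h2, if_neg h5]
        have := mass_le hp.2 h2 h5 (by omega : p ≤ x)
        linarith
  refine (sum_le_sum hpt).trans ?_
  rw [sum_add_distrib, sum_add_distrib, sum_add_distrib, sum_const, nsmul_eq_mul, hPcard]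
  have hA : ∑ p ∈ P, (if p = 2 then 2 * R 2 else 0) ≤ 2 * R 2 := by
    rw [sum_ite_eq']
    have := hR0 2
    split_ifs <;> linarith
  have hB : ∑ p ∈ P, (if p = 5 then 5 * R 5 else 0) ≤ 5 * R 5 := by
    rw [sum_ite_eq']
    have := hR0 5
    split_ifs <;> linarith
  have hC : ∑ p ∈ P, ∑ h ∈ Icc 1 (x + 1), g h p ≤ 4 * C1 * C3 * Nat.primeCounting x := by
    rw [sum_comm]
    have h1 : ∀ h ∈ Icc 1 (x + 1), ∑ p ∈ P, g h p ≤
        (2 * C1 * x / (Real.log x) ^ 2) * (((h : ℝ) / (Nat.totient h : ℝ)) ^ 6 / h) := by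
      intro h hh
      rw [mem_Icc] at hh
      have hh0 : (0 : ℝ) < h := by exact_mod_cast hh.1
      unfold g
      rw [sum_add_distrib, ← sum_filter, ← sum_filter, sum_const, sum_const, nsmul_eq_mul,
        nsmul_eq_mul]
      have hc1 : ((P.filter (fun p => (h * p + 1).Prime)).card : ℝ) ≤ (T1 x h).card := by
        have : (P.filter (fun p => (h * p + 1).Prime)) ⊆ T1 x h := by
          intro p hp
          rw [mem_filter, hP, mem_filter, mem_range] at hp
          exact mem_T1 (by omega) hp.1.2 hp.2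
        exact_mod_cast card_le_card this
      have hc2 : ((P.filter (fun p => (h * p - 1).Prime)).card : ℝ) ≤ (T2 x h).card := by
        have : (P.filter (fun p => (h * p - 1).Prime)) ⊆ (T2 x h).image (fun n => n + 1) := by
          intro p hp
          rw [mem_filter, hP, mem_filter, mem_range] at hp
          exact mem_T2 (by omega) hp.1.2 hh.1 hp.2
        exact_mod_cast (card_le_card this).trans card_image_le
      have h2 := hT x h hx2 hh.1
      have h3 : (0 : ℝ) ≤ 2 / h := by positivity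
      calc _ ≤ ((T1 x h).card : ℝ) * (2 / h) + (T2 x h).card * (2 / h) :=
            add_le_add (mul_le_mul_of_nonneg_right hc1 h3) (mul_le_mul_of_nonneg_right hc2 h3)
        _ = (((T1 x h).card : ℝ) + (T2 x h).card) * (2 / h) := by ring
        _ ≤ ((C1 * x / (Real.log x) ^ 2) * ((h : ℝ) / (Nat.totient h : ℝ)) ^ 6) * (2 / h) :=
            mul_le_mul_of_nonneg_right h2 h3
        _ = _ := by ring
    refine (sum_le_sum h1).trans ?_
    rw [← mul_sum]
    have h4 := hW x hx2
    calc (2 * C1 * x / (Real.log x) ^ 2) *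
          ∑ h ∈ Icc 1 (x + 1), (((h : ℝ) / (Nat.totient h : ℝ)) ^ 6 / h)
        ≤ (2 * C1 * x / (Real.log x) ^ 2) * (C3 * Real.log x) := by
          apply mul_le_mul_of_nonneg_left h4
          positivity
      _ = 4 * C1 * C3 * (x / (2 * Real.log x)) := by field_simp; ring
      _ ≤ 4 * C1 * C3 * Nat.primeCounting x := by
          apply mul_le_mul_of_nonneg_left hx
          positivity
  have hD : (2 * R 2 + 5 * R 5) ≤ (2 * R 2 + 5 * R 5) * Nat.primeCounting x := by
    have h1 := hR0 2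
    have h2 := hR0 5
    nlinarith
  nlinarith

/-- **Small prime factors of the Fibonacci and Lucas numbers of prime index.**

(1) For a prime `p ≠ 2, 5` every prime factor `q` of `U_p V_p` is `≡ ± 1 (mod p)`.
(2) There is a constant `C` such that for all `x ≥ 2` and `K ≥ 1` the number of primes `p ≤ x` for
which `U_p V_p` has a prime factor `≤ K p` is at most `C K x / (log x)²`.
(3) If `K(x) = o(log x)` then the proportion of these primes among all primes `≤ x` tends to zero.
(4) The average over the primes `p ≤ x` of `p` times the sum of the reciprocals of the prime factors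
of `U_p V_p` is bounded. -/
theorem result :
    (∀ p q : ℕ, p.Prime → p ≠ 2 → p ≠ 5 → q.Prime → q ∣ Nat.fib p * luc p →
      p ∣ q - 1 ∨ p ∣ q + 1) ∧
    (∃ C : ℝ, 0 < C ∧ ∀ x K : ℕ, 2 ≤ x → 1 ≤ K →
      (bad x K : ℝ) ≤ C * K * x / (Real.log x) ^ 2) ∧
    (∀ K : ℕ → ℕ, Tendsto (fun x : ℕ => (K x : ℝ) / Real.log x) atTop (nhds 0) →
      Tendsto (fun x : ℕ => (bad x (K x) : ℝ) / Nat.primeCounting x) atTop (nhds 0)) ∧
    (∃ C : ℝ, 0 < C ∧ ∀ᶠ x : ℕ in atTop,
      ∑ p ∈ (range (x + 1)).filter Nat.Prime, p * R p ≤ C * Nat.primeCounting x) := by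
  refine ⟨fun p q hp hp2 hp5 hq hd => prime_factor hp hp2 hp5 hq hd, bad_bound, ?_, mass_bound⟩
  intro K hK
  obtain ⟨C, hC, hb⟩ := bad_bound
  have hlog : Tendsto (fun x : ℕ => Real.log x) atTop atTop :=
    Real.tendsto_log_atTop.comp tendsto_natCast_atTop_atTop
  -- replace `K` by `K + 1`
  have hK1 : Tendsto (fun x : ℕ => 2 * C * (((K x : ℝ) + 1) / Real.log x)) atTop (nhds 0) := by
    have h1 : Tendsto (fun x : ℕ => 1 / Real.log x) atTop (nhds 0) :=
      Tendsto.div_atTop tendsto_const_nhds hlog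
    have h2 := (hK.add h1).const_mul (2 * C)
    simp only [add_zero, mul_zero] at h2
    refine h2.congr fun x => ?_
    rw [add_div]
  refine squeeze_zero' ?_ ?_ hK1
  · filter_upwards with x
    positivity
  · filter_upwards [pi_lower, eventually_ge_atTop 2] with x hx hx2
    have hx0 : (0 : ℝ) < x := by positivity
    have hlog : 0 < Real.log x := Real.log_pos (by exact_mod_cast hx2)
    have hmono : bad x (K x) ≤ bad x (K x + 1) := by
      classical
      unfold bad
      apply card_le_card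
      intro p hp
      rw [mem_filter] at hp ⊢
      obtain ⟨h1, h2, q, h4, h5, h6⟩ := hp
      refine ⟨h1, h2, q, h4, h5, h6.trans ?_⟩
      exact Nat.mul_le_mul_right _ (by omega)
    have h1 := hb x (K x + 1) hx2 (by omega)
    have h2 : (bad x (K x) : ℝ) ≤ C * (((K x + 1 : ℕ)) : ℝ) * x / (Real.log x) ^ 2 :=
      le_trans (by exact_mod_cast hmono) h1
    push_cast at h2
    have hpi : (0 : ℝ) < Nat.primeCounting x := lt_of_lt_of_le (by positivity) hx
    rw [div_le_iff₀ hpi]
    refine h2.trans ?_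
    have h3 : 2 * C * (((K x : ℝ) + 1) / Real.log x) * ((x : ℝ) / (2 * Real.log x)) ≤
        2 * C * (((K x : ℝ) + 1) / Real.log x) * Nat.primeCounting x := by
      apply mul_le_mul_of_nonneg_left hx
      positivity
    refine le_trans (le_of_eq ?_) h3
    field_simp

end Pool.Agent.Results.MP_5893d7_nt.FewSmallFactors
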