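import Mathlib
import Pool.Agent.R500.FB.Fib

set_option autoImplicit false

/-!
# Real solutions of the Fibonacci recurrence with finitely many prime values

The real solutions of `T (n + 2) = T (n + 1) + T n` are the sequences
`T β B n = β φ ^ n + B ψ ^ n` with `φ = (1 + √5) / 2`, `ψ = (1 - √5) / 2`; the Fibonacci numbers are
the solution with `β = 1 / √5`, `B = -1 / √5`, the Lucas numbers the one with `β = B = 1`.  For a
prime `p` let `W β B p` be the `p`-rough part (the product, with multiplicity, of the prime factors
larger than `p`) of `⌊T β B p⌋`.  For the Fibonacci and the Lucas numbers this is the number with the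
index `p` itself, for all primes `p > 5`.

We prove that for every `B` every interval contains uncountably many `β` for which `W β B p` is prime
for only finitely many primes `p`.  The proof follows integer solutions of the recurrence which are
divisible by the square of a large prime, and passes from one to the next inside a long window
without primes (large gaps between primes).
-/

namespace Pool.Agent.Results.MP_5893d7_nt.FinitelyManyIndices

open Filter Topology Set

/-- The Lucas numbers. -/
def L : ℕ → ℕ
  | 0 => 2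
  | 1 => 1
  | (n + 2) => L (n + 1) + L n

/-- The golden ratio. -/
noncomputable def φ : ℝ := (1 + Real.sqrt 5) / 2

/-- The conjugate of the golden ratio. -/
noncomputable def ψ : ℝ := (1 - Real.sqrt 5) / 2

/-- The real solutions of the Fibonacci recurrence. -/
noncomputable def T (β B : ℝ) (n : ℕ) : ℝ := β * φ ^ n + B * ψ ^ n

/-- The product, with multiplicity, of the prime factors of `m` that are larger than `p`. -/
def roughPart (p m : ℕ) : ℕ := (m.primeFactorsList.filter (fun r => p < r)).prod

/-- The `p`-rough part of `⌊T β B p⌋`. -/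
noncomputable def W (β B : ℝ) (p : ℕ) : ℕ := roughPart p ⌊T β B p⌋₊

lemma L_eq (n : ℕ) : L n = Pool.Agent.R500.FB.L n := by
  induction n using Nat.twoStepInduction with
  | zero => rfl
  | one => rfl
  | more n h1 h2 =>
    show L (n + 1) + L n = Pool.Agent.R500.FB.L (n + 1) + Pool.Agent.R500.FB.L n
    rw [h1, h2]

lemma T_eq (β B : ℝ) (n : ℕ) : T β B n =
    Pool.Agent.R500.FB.T Pool.Agent.R500.FB.φ Pool.Agent.R500.FB.ψ β B n := rfl

lemma W_eq (β B : ℝ) (p : ℕ) : W β B p =
    Pool.Agent.R500.FB.W Pool.Agent.R500.FB.φ Pool.Agent.R500.FB.ψ β B p := rfl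

/-- **Every interval contains uncountably many solutions with finitely many prime values.** -/
theorem result :
    (∀ n : ℕ, T (1 / Real.sqrt 5) (-(1 / Real.sqrt 5)) n = Nat.fib n ∧ T 1 1 n = L n) ∧
    (∀ p : ℕ, p.Prime → 5 < p →
      W (1 / Real.sqrt 5) (-(1 / Real.sqrt 5)) p = Nat.fib p ∧ W 1 1 p = L p) ∧
    (∀ B u v : ℝ, 0 ≤ u → u < v →
      ¬ {β : ℝ | β ∈ Set.Ioo u v ∧ {p : ℕ | p.Prime ∧ (W β B p).Prime}.Finite}.Countable) := by
  refine ⟨fun n => ⟨?_, ?_⟩, fun p hp h5 => ⟨?_, ?_⟩, fun B u v _ huv => ?_⟩
  · rw [T_eq]; exact Pool.Agent.R500.FB.T_fib n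
  · rw [T_eq, L_eq]; exact Pool.Agent.R500.FB.T_luc n
  · rw [W_eq]; exact Pool.Agent.R500.FB.W_fib hp h5
  · rw [W_eq, L_eq]; exact Pool.Agent.R500.FB.W_luc hp h5
  · have h := Pool.Agent.R500.FB.few Pool.Agent.R500.FB.one_lt_phi Pool.Agent.R500.FB.phi_add
      Pool.Agent.R500.FB.phi_mul B huv
    simp only [← W_eq] at h
    exact h

end Pool.Agent.Results.MP_5893d7_nt.FinitelyManyIndices
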