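import Mathlib
import Pool.Agent.R500.FB.Fib

set_option autoImplicit false

/-!
# The generic real solution of the Fibonacci recurrence

The real solutions of `T (n + 2) = T (n + 1) + T n` are the sequences
`T β B n = β φ ^ n + B ψ ^ n` with `φ = (1 + √5) / 2`, `ψ = (1 - √5) / 2`; the Fibonacci numbers are
the solution with `β = 1 / √5`, `B = -1 / √5`, the Lucas numbers the one with `β = B = 1`.  For a
prime `p` let `W β B p` be the `p`-rough part (the product, with multiplicity, of the prime factors
larger than `p`) of `⌊T β B p⌋`.  For the Fibonacci and the Lucas numbers this is the number with the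
index `p` itself, for all primes `p > 5`.  Let `M β B n` be the number of primes `p ≤ n` with
`W β B p` prime.

For every `B` and almost every `β > 0` one has `M β B n ∼ (e ^ γ / log φ) log n` (starting files).
We prove that for every `B` and comeagre many `β > 0` the counting function is smaller than `f n` for
infinitely many `n`, for every function `f` tending to infinity, and every number of the interval
`[0, e ^ γ / log φ]` is a limit point of `M β B n / log n`.
-/

namespace Pool.Agent.Results.MP_5893d7_nt.GenericSolution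

open Filter Topology Set

/-- The Lucas numbers. -/
def L : ℕ → ℕ
  | 0 => 2
  | 1 => 1
  | (n + 2) => L (n + 1) + L n

/-- The golden ratio. -/
noncomputable def φ : ℝ := (1 + Real.sqrt 5) / 2

/-- The conjugate of the golden ratio. -/
noncomputable def ψ : ℝ := (1 - Real.sqrt 5) / 2

/-- The real solutions of the Fibonacci recurrence. -/
noncomputable def T (β B : ℝ) (n : ℕ) : ℝ := β * φ ^ n + B * ψ ^ n

/-- The product, with multiplicity, of the prime factors of `m` that are larger than `p`. -/
def roughPart (p m : ℕ) : ℕ := (m.primeFactorsList.filter (fun r => p < r)).prod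

/-- The `p`-rough part of `⌊T β B p⌋`. -/
noncomputable def W (β B : ℝ) (p : ℕ) : ℕ := roughPart p ⌊T β B p⌋₊

/-- The number of primes `p ≤ n` for which `W β B p` is prime. -/
noncomputable def M (β B : ℝ) (n : ℕ) : ℕ :=
  ((Finset.range (n + 1)).filter (fun p => p.Prime ∧ (W β B p).Prime)).card

lemma L_eq (n : ℕ) : L n = Pool.Agent.R500.FB.L n := by
  induction n using Nat.twoStepInduction with
  | zero => rfl
  | one => rfl
  | more n h1 h2 =>
    show L (n + 1) + L n = Pool.Agent.R500.FB.L (n + 1) + Pool.Agent.R500.FB.L n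
    rw [h1, h2]

lemma T_eq (β B : ℝ) (n : ℕ) : T β B n =
    Pool.Agent.R500.FB.T Pool.Agent.R500.FB.φ Pool.Agent.R500.FB.ψ β B n := rfl

lemma W_eq (β B : ℝ) (p : ℕ) : W β B p =
    Pool.Agent.R500.FB.W Pool.Agent.R500.FB.φ Pool.Agent.R500.FB.ψ β B p := rfl

lemma M_eq (β B : ℝ) (n : ℕ) : M β B n =
    Pool.Agent.R500.FB.M Pool.Agent.R500.FB.φ Pool.Agent.R500.FB.ψ β B n := rfl

/-- **The law fails for the topologically generic solution.** -/
theorem result :
    (∀ n : ℕ, T (1 / Real.sqrt 5) (-(1 / Real.sqrt 5)) n = Nat.fib n ∧ T 1 1 n = L n) ∧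
    (∀ p : ℕ, p.Prime → 5 < p →
      W (1 / Real.sqrt 5) (-(1 / Real.sqrt 5)) p = Nat.fib p ∧ W 1 1 p = L p) ∧
    (∀ B : ℝ, ∀ f : ℕ → ℝ, Tendsto f atTop atTop → ∀ᶠ β : ℝ in residual ℝ, 0 < β →
      ∃ᶠ n : ℕ in atTop, (M β B n : ℝ) < f n) ∧
    (∀ B : ℝ, ∀ᶠ β : ℝ in residual ℝ, 0 < β → ∀ c : ℝ, 0 ≤ c →
      c ≤ Real.exp Real.eulerMascheroniConstant / Real.log φ →
      MapClusterPt c atTop (fun n : ℕ => (M β B n : ℝ) / Real.log n)) := by
  refine ⟨fun n => ⟨?_, ?_⟩, fun p hp h5 => ⟨?_, ?_⟩, fun B f hf => ?_, fun B => ?_⟩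
  · rw [T_eq]; exact Pool.Agent.R500.FB.T_fib n
  · rw [T_eq, L_eq]; exact Pool.Agent.R500.FB.T_luc n
  · rw [W_eq]; exact Pool.Agent.R500.FB.W_fib hp h5
  · rw [W_eq, L_eq]; exact Pool.Agent.R500.FB.W_luc hp h5
  · have h := Pool.Agent.R500.FB.generic_low Pool.Agent.R500.FB.one_lt_phi
      Pool.Agent.R500.FB.phi_add Pool.Agent.R500.FB.phi_mul B hf
    simp only [← M_eq] at h
    exact h
  · have h := Pool.Agent.R500.FB.fib_generic B
    simp only [← M_eq] at h
    exact h

end Pool.Agent.Results.MP_5893d7_nt.GenericSolution
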