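import Mathlib
import Pool.Agent.TH888.C.Val
import Pool.Agent.H447R2.ML.Spec

set_option autoImplicit false

/-!
# Primes in the Fibonacci and Lucas sequences with a real parameter

For a real number `x` let `U x n` and `V x n` be the solutions of `T (n + 2) = x T (n + 1) + T n`
with `U x 0 = 0`, `U x 1 = 1` and `V x 0 = 2`, `V x 1 = x`.  At `x = 1` these are the Fibonacci and
the Lucas numbers, at the positive integers `x = P` they are the Lucas sequences with parameters
`(P, -1)`.  For a prime `p` let `W s p` be the `p`-rough part (the product, with multiplicity, of the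
prime factors larger than `p`) of the integer part of `s p`.  We take `s = A x * U x` or
`s = A x * V x` with a positive `C ^ 2` function `A` with `A 1 = 1`; at `x = 1` the numbers `W s p`
are the Fibonacci and the Lucas numbers of index `p`, for all primes `p > 5`.

Here the recurrence varies, with the parameter `x`, and the initial values are fixed.  We prove that
for almost every `x > 0` the number of primes `p ≤ n` with `W s p` prime is
`(e ^ γ / log α) log n + O((log n) ^ (1/2) (log log n) ^ (5/2))`, where `α` is the growth rate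
`(x + √(x ^ 2 + 4)) / 2` of both sequences, that for every set `S` and almost every `x > 0` there are
infinitely many such primes `p` in `S` if and only if the sum of `log p / p` over the primes in `S`
diverges, and that in this case their number up to `n` is
`(e ^ γ / log α) w + O((w K) ^ (1/2) (log (w K)) ^ 2)`, with `w` the sum of `log p / p` over the
primes `p ≤ n` in `S` and `K = log log n`.
-/

namespace Pool.Agent.Results.MP_5893d7_nt.RealParameter

open Filter Topology MeasureTheory Asymptotics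

/-- The Lucas numbers. -/
def L : ℕ → ℕ
  | 0 => 2
  | 1 => 1
  | (n + 2) => L (n + 1) + L n

/-- The Fibonacci sequence with the real parameter `x`. -/
noncomputable def U (x : ℝ) : ℕ → ℝ
  | 0 => 0
  | 1 => 1
  | (n + 2) => x * U x (n + 1) + U x n

/-- The Lucas sequence with the real parameter `x`. -/
noncomputable def V (x : ℝ) : ℕ → ℝ
  | 0 => 2
  | 1 => x
  | (n + 2) => x * V x (n + 1) + V x n

/-- The growth rate of `U x` and `V x`. -/
noncomputable def α (x : ℝ) : ℝ := (x + Real.sqrt (x ^ 2 + 4)) / 2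

/-- The product, with multiplicity, of the prime factors of `m` that are larger than `p`. -/
def roughPart (p m : ℕ) : ℕ := (m.primeFactorsList.filter (fun r => p < r)).prod

/-- The `p`-rough part of the integer part of `s p`. -/
noncomputable def W (s : ℕ → ℝ) (p : ℕ) : ℕ := roughPart p ⌊s p⌋₊

open Classical in
/-- The number of primes `p ≤ n` in the set `S` for which `W s p` is prime. -/
noncomputable def M (S : Set ℕ) (s : ℕ → ℝ) (n : ℕ) : ℕ :=
  ((Finset.range (n + 1)).filter (fun p => p.Prime ∧ p ∈ S ∧ (W s p).Prime)).card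

open Classical in
/-- The sum of `log p / p` over the primes `p ≤ n` in the set `S`. -/
noncomputable def w (S : Set ℕ) (n : ℕ) : ℝ :=
  ∑ p ∈ (Finset.range (n + 1)).filter (fun p => p.Prime ∧ p ∈ S), Real.log p / p

lemma w_eq (S : Set ℕ) (n : ℕ) : w S n = Pool.Agent.TH888.R.VS S n := by
  classical
  unfold w Pool.Agent.TH888.R.VS
  rw [Finset.sum_filter]
  refine Finset.sum_congr rfl fun p _ => ?_
  by_cases h : p.Prime ∧ p ∈ S
  · rw [if_pos h, if_pos ⟨h.2, h.1⟩]
    rfl
  · rw [if_neg h, if_neg fun h1 => h ⟨h1.2, h1.1⟩]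

lemma U_lU (x : ℝ) (n : ℕ) : U x n = Pool.Agent.W66C.lU x n := by
  induction n using Nat.twoStepInduction with
  | zero => rfl
  | one => rfl
  | more n h1 h2 =>
    show x * U x (n + 1) + U x n = x * Pool.Agent.W66C.lU x (n + 1) + Pool.Agent.W66C.lU x n
    rw [h1, h2]

lemma V_lV (x : ℝ) (n : ℕ) : V x n = Pool.Agent.W66C.lV x n := by
  induction n using Nat.twoStepInduction with
  | zero => rfl
  | one => rfl
  | more n h1 h2 =>
    show x * V x (n + 1) + V x n = x * Pool.Agent.W66C.lV x (n + 1) + Pool.Agent.W66C.lV x n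
    rw [h1, h2]

/-- the values at the positive integers -/
lemma U_nat (P n : ℕ) : U P n = (Pool.Agent.H447R2.ML.U P n : ℝ) := by
  induction n using Nat.twoStepInduction with
  | zero => simp [U, Pool.Agent.H447R2.ML.U]
  | one => simp [U, Pool.Agent.H447R2.ML.U]
  | more n h1 h2 =>
    show (P : ℝ) * U P (n + 1) + U P n = _
    rw [h1, h2, Pool.Agent.H447R2.ML.U_add_two]
    push_cast
    ring

lemma V_nat (P n : ℕ) : V P n = (Pool.Agent.H447R2.ML.V P n : ℝ) := by
  induction n using Nat.twoStepInduction with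
  | zero => simp [V, Pool.Agent.H447R2.ML.V]
  | one => simp [V, Pool.Agent.H447R2.ML.V]
  | more n h1 h2 =>
    show (P : ℝ) * V P (n + 1) + V P n = _
    rw [h1, h2, Pool.Agent.H447R2.ML.V_add_two]
    push_cast
    ring

lemma fib_eq (n : ℕ) : Pool.Agent.H447R2.ML.U 1 n = Nat.fib n := by
  induction n using Nat.twoStepInduction with
  | zero => rfl
  | one => rfl
  | more n h1 h2 =>
    rw [Pool.Agent.H447R2.ML.U_add_two, h1, h2, Nat.fib_add_two]
    ring

lemma luc_eq (n : ℕ) : Pool.Agent.H447R2.ML.V 1 n = L n := by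
  induction n using Nat.twoStepInduction with
  | zero => rfl
  | one => rfl
  | more n h1 h2 =>
    show _ = L (n + 1) + L n
    rw [Pool.Agent.H447R2.ML.V_add_two, h1, h2]
    ring

/-- The Fibonacci numbers. -/
lemma U_one (n : ℕ) : U 1 n = Nat.fib n := by
  have h := U_nat 1 n
  rw [Nat.cast_one, fib_eq] at h
  exact h

/-- The Lucas numbers. -/
lemma V_one (n : ℕ) : V 1 n = L n := by
  have h := V_nat 1 n
  rw [Nat.cast_one, luc_eq] at h
  exact h

/-- The values at the integers. -/
lemma W_int {A : ℝ → ℝ} {P : ℕ} (hP : 0 < P) (hA : A P = 1) {p : ℕ} (hp : p.Prime) (h5 : 5 ≤ p)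
    (hd : ¬ p ∣ P ^ 2 + 4) : (W (fun n => A P * U P n) p : ℝ) = U P p := by
  have h := Pool.Agent.H447R2.ML.rough_U P hP hp h5 hd
    (x := A P * U P p) (by rw [hA, one_mul, U_nat])
  have h2 : W (fun n => A P * U P n) p = Pool.Agent.H447R2.ML.U P p := h
  rw [h2, U_nat]

/-- The Fibonacci numbers. -/
lemma W_fib {A : ℝ → ℝ} (hA : A 1 = 1) {p : ℕ} (hp : p.Prime) (h5 : 5 < p) :
    W (fun n => A 1 * U 1 n) p = Nat.fib p := by
  have hd : ¬ p ∣ 1 ^ 2 + 4 := by
    intro h
    have := Nat.le_of_dvd (by norm_num) h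
    omega
  have h := W_int (A := A) (P := 1) one_pos (by rw [Nat.cast_one]; exact hA) hp (by omega) hd
  rw [Nat.cast_one, U_one] at h
  exact_mod_cast h

/-- The Lucas numbers. -/
lemma W_luc {A : ℝ → ℝ} (hA : A 1 = 1) {p : ℕ} (hp : p.Prime) (h5 : 5 < p) :
    W (fun n => A 1 * V 1 n) p = L p := by
  have hd : ¬ p ∣ 1 := fun h => hp.one_lt.ne' (Nat.dvd_one.1 h)
  have h : Pool.Agent.H305R2.roughPart p ⌊A 1 * V 1 p⌋₊ = L p := by
    rw [hA, one_mul, V_one, Nat.floor_natCast]
    refine Pool.Agent.H447R2.ML.roughPart_eq_self ?_ fun q hq h => ?_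
    · rw [← luc_eq]
      exact (Pool.Agent.H447R2.ML.V_pos 1 p one_pos).ne'
    · rw [← luc_eq] at h
      exact Pool.Agent.H447R2.ML.lt_of_dvd_V 1 hp (by omega) hd hq
        (fun h' => hq.one_lt.ne' (Nat.dvd_one.1 h')) h
  exact h

lemma M_eq (S : Set ℕ) (s : ℕ → ℝ) (n : ℕ) :
    M S s n = Pool.Agent.TH888.R.cS S (fun p => ⌊s p⌋₊) n := by
  classical
  unfold M Pool.Agent.TH888.R.cS
  rfl

lemma pt {A : ℝ → ℝ} (hA : ContDiffOn ℝ 2 A (Set.Ioi 0)) (hpos : ∀ x : ℝ, 0 < x → 0 < A x)
    {F : ℝ → ℕ → ℝ} (hF : F = U ∨ F = V)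
    (S : Set ℕ) : ∀ᵐ x : ℝ, 0 < x → Pool.Agent.TH888.R.Pt (fun p => ⌊A x * F x p⌋₊)
      (Real.exp Real.eulerMascheroniConstant / Real.log (α x)) S := by
  rcases hF with rfl | rfl
  · have h := Pool.Agent.TH888.C.pt_U_curve S hA hpos
    simp only [← U_lU] at h
    exact h
  · have h := Pool.Agent.TH888.C.pt_V_curve S hA hpos
    simp only [← V_lV] at h
    exact h

/-- At `x = 1` the values are the Fibonacci and the Lucas numbers, and along every positive `C ^ 2`
curve of amplitudes the law holds with a square root error term for almost every real parameter; for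
every set of primes the number of prime values is finite or infinite according to the weight of the
set, and in the second case it obeys the corresponding law. -/
theorem result :
    (∀ n : ℕ, U 1 n = Nat.fib n ∧ V 1 n = L n) ∧
    (∀ A : ℝ → ℝ, A 1 = 1 → ∀ p : ℕ, p.Prime → 5 < p →
      W (fun n => A 1 * U 1 n) p = Nat.fib p ∧ W (fun n => A 1 * V 1 n) p = L p) ∧
    (∀ A : ℝ → ℝ, ∀ P : ℕ, 0 < P → A P = 1 → ∀ p : ℕ, p.Prime → 5 ≤ p → ¬ p ∣ P ^ 2 + 4 →
      (W (fun n => A P * U P n) p : ℝ) = U P p) ∧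
    (∀ A : ℝ → ℝ, ContDiffOn ℝ 2 A (Set.Ioi 0) → (∀ x : ℝ, 0 < x → 0 < A x) →
      ∀ F : ℝ → ℕ → ℝ, F = U ∨ F = V →
      (∀ᵐ x : ℝ, 0 < x →
        (fun n : ℕ => (M Set.univ (fun k => A x * F x k) n : ℝ) -
          Real.exp Real.eulerMascheroniConstant / Real.log (α x) * Real.log n) =O[atTop]
        (fun n : ℕ => Real.sqrt (Real.log n) * (Real.log (Real.log n)) ^ ((5 : ℝ) / 2))) ∧
      (∀ S : Set ℕ, Tendsto (w S) atTop atTop → ∀ᵐ x : ℝ, 0 < x →
        (fun n : ℕ => (M S (fun k => A x * F x k) n : ℝ) -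
          Real.exp Real.eulerMascheroniConstant / Real.log (α x) * w S n) =O[atTop]
        (fun n : ℕ => Real.sqrt (w S n * Real.log (Real.log n)) *
          (Real.log (w S n * Real.log (Real.log n))) ^ 2)) ∧
      (∀ S : Set ℕ, ∀ᵐ x : ℝ, 0 < x →
        ({p : ℕ | p.Prime ∧ p ∈ S ∧ (W (fun k => A x * F x k) p).Prime}.Infinite ↔
          Tendsto (w S) atTop atTop))) := by
  have hV : ∀ S, w S = Pool.Agent.TH888.R.VS S := fun S => funext fun n => w_eq S n
  refine ⟨fun n => ⟨U_one n, V_one n⟩, fun A hA p hp h5 => ⟨W_fib hA hp h5, W_luc hA hp h5⟩,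
    fun A P hP hA p hp h5 hd => W_int hP hA hp h5 hd,
    fun A hA hpos F hF => ⟨?_, fun S hS => ?_, fun S => ?_⟩⟩
  · filter_upwards [pt hA hpos hF Set.univ] with x hx h0
    obtain ⟨B, hB, h⟩ := (hx h0).law Pool.Agent.TH888.R.VS_univ_tendsto
    simp only [M_eq]
    exact Pool.Agent.TH888.R.bigO_all hB h
  · rw [hV] at hS ⊢
    filter_upwards [pt hA hpos hF S] with x hx h0
    obtain ⟨B, hB, h⟩ := (hx h0).law hS
    simp only [M_eq]
    exact Pool.Agent.TH888.R.bigO_set hB hS h
  · rw [hV]
    filter_upwards [pt hA hpos hF S] with x hx h0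
    constructor
    · intro hi
      by_contra hn
      exact hi ((hx h0).fin hn)
    · exact (hx h0).inf

end Pool.Agent.Results.MP_5893d7_nt.RealParameter
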